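import Mathlib

set_option autoImplicit false

namespace Pool.Agent.Results.MP_48b99b_co.Yes

open Finset

/-- `c` is a FAT `k`-colouring of `G`. -/
def IsFAT {V : Type} (G : SimpleGraph V) (k : ℕ) (c : V → Fin k) : Prop :=
  ∃ α : ℝ, 0 ≤ α ∧ α ≤ 1 ∧ ∀ v i, (({w | G.Adj v w ∧ c w = i} : Set V).ncard : ℝ) =
    (if c v = i then 1 - (k - 1) * α else α) * ({w | G.Adj v w} : Set V).ncard

/-- The partition `s` of the vertices is the partition into colour classes of a FAT colouring. -/
def FAT {V : Type} (G : SimpleGraph V) (s : Setoid V) : Prop :=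
  ∃ (k : ℕ) (c : V → Fin k), IsFAT G k c ∧ s = Setoid.ker c

/-- Some automorphism of `G` maps the partition `s` onto the partition `t`. -/
def Same {V : Type} (G : SimpleGraph V) (s t : Setoid V) : Prop :=
  ∃ φ : G ≃g G, ∀ u v, s u v ↔ t (φ u) (φ v)

abbrev W (n : ℕ) := (Fin 3 × Fin n) ⊕ (Fin 2 × Fin 2)

def R (i : Fin 3) (j : Fin 2) : Prop := i.val = j.val ∨ i.val = j.val + 1

instance (i : Fin 3) (j : Fin 2) : Decidable (R i j) := by unfold R; infer_instance

def G (n : ℕ) : SimpleGraph (W n) where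
  Adj u v := match u, v with
    | .inl p, .inr q => R p.1 q.1
    | .inr q, .inl p => R p.1 q.1
    | _, _ => False
  symm := ⟨by rintro (u | u) (v | v) h <;> exact h⟩
  loopless := ⟨by rintro (u | u) h <;> exact h⟩

variable {n : ℕ}

noncomputable def NA (P : W n → Prop) (i : Fin 3) : ℕ := by classical exact #{x : Fin n | P (.inl (i, x))}

noncomputable def NB (P : W n → Prop) (j : Fin 2) : ℕ := by classical exact #{y : Fin 2 | P (.inr (j, y))}

lemma cntA (P : W n → Prop) (i : Fin 3) (x : Fin n) :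
    ({w | (G n).Adj (.inl (i, x)) w ∧ P w} : Set (W n)).ncard =
      ∑ j, if R i j then NB P j else 0 := by
  classical
  rw [Set.ncard_eq_toFinset_card', Set.toFinset_ofPred, card_filter, Fintype.sum_sum_type,
    Fintype.sum_prod_type, Fintype.sum_prod_type]
  simp only [G, false_and, if_false, sum_const_zero, zero_add, NB, card_filter]
  refine sum_congr rfl fun j _ => ?_
  by_cases h : R i j <;> simp [h]

lemma cntB (P : W n → Prop) (j y : Fin 2) :
    ({w | (G n).Adj (.inr (j, y)) w ∧ P w} : Set (W n)).ncard =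
      ∑ i, if R i j then NA P i else 0 := by
  classical
  rw [Set.ncard_eq_toFinset_card', Set.toFinset_ofPred, card_filter, Fintype.sum_sum_type,
    Fintype.sum_prod_type, Fintype.sum_prod_type]
  simp only [G, false_and, if_false, sum_const_zero, add_zero, NA, card_filter]
  refine sum_congr rfl fun i _ => ?_
  by_cases h : R i j <;> simp [h]

lemma degA (i : Fin 3) (x : Fin n) : ({w | (G n).Adj (.inl (i, x)) w} : Set (W n)).ncard =
    if i = 1 then 4 else 2 := by
  have := cntA (fun _ => True) i x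
  simp only [and_true] at this
  rw [this]
  fin_cases i <;> simp [NB, R]

lemma degB (j y : Fin 2) : ({w | (G n).Adj (.inr (j, y)) w} : Set (W n)).ncard = 2 * n := by
  have := cntB (n := n) (fun _ => True) j y
  simp only [and_true] at this
  rw [this]
  fin_cases j <;> simp [NA, R, Fin.sum_univ_three, two_mul]

lemma NB_eq {k : ℕ} (c : W n → Fin k) (i : Fin k) (j : Fin 2) : NB (fun w => c w = i) j =
    (if c (.inr (j, 0)) = i then 1 else 0) + if c (.inr (j, 1)) = i then 1 else 0 := by
  simp only [NB, card_filter, Fin.sum_univ_two]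

lemma NA_add (c : W n → Fin 2) (i : Fin 3) :
    NA (fun w => c w = 0) i + NA (fun w => c w = 1) i = n := by
  classical
  have := card_filter_add_card_filter_not (s := (univ : Finset (Fin n)))
    (fun x => c (.inl (i, x)) = 0)
  rw [card_fin] at this
  unfold NA
  have e : ∀ y : Fin 2, ¬ y = 0 ↔ y = 1 := by decide
  simp only [e] at this
  convert this

def Bal (c : W n → Fin 2) : Prop := (∀ j, c (.inr (j, 0)) ≠ c (.inr (j, 1))) ∧
  NA (fun w => c w = 0) 0 + NA (fun w => c w = 0) 1 = n ∧
  NA (fun w => c w = 0) 1 + NA (fun w => c w = 0) 2 = n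

def bip : W n → Fin 2 := Sum.elim (fun _ => 0) fun _ => 1

lemma bal_fat {c : W n → Fin 2} (h : Bal c) : IsFAT (G n) 2 c := by
  obtain ⟨h1, h2, h3⟩ := h
  refine ⟨1 / 2, by norm_num, by norm_num, fun v i => ?_⟩
  rw [show (1 : ℝ) - ((2 : ℕ) - 1) * (1 / 2) = 1 / 2 by norm_num, ite_self]
  rcases v with ⟨a, x⟩ | ⟨j, y⟩
  · have e : ∀ j, NB (fun w => c w = i) j = 1 := fun j => by
      rw [NB_eq]
      have := h1 j
      split_ifs <;> omega
    rw [cntA, degA]
    fin_cases a <;> simp only [e, R, Fin.sum_univ_two] <;> norm_num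
  · rw [cntB, degB]
    have a0 := NA_add c 0
    have a1 := NA_add c 1
    have a2 := NA_add c 2
    have : (∑ a, if R a j then NA (fun w => c w = i) a else 0) = n := by
      fin_cases j <;> fin_cases i <;> simp [R, Fin.sum_univ_three] <;> omega
    rw [this]; push_cast; ring

lemma bip_fat : IsFAT (G n) 2 bip := by
  refine ⟨1, zero_le_one, le_rfl, fun v i => ?_⟩
  split_ifs with h
  · have : ({w | (G n).Adj v w ∧ bip w = i} : Set (W n)) = ∅ := by
      subst h
      ext w
      rcases v with v | v <;> rcases w with w | w <;> simp [G, bip]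
    rw [this]; norm_num
  · have : ({w | (G n).Adj v w ∧ bip w = i} : Set (W n)) = {w | (G n).Adj v w} := by
      ext w
      rcases v with v | v <;> rcases w with w | w <;> simp [G, bip] at h ⊢ <;> omega
    rw [this, one_mul]

lemma spread {β : Type} (x : Fin n) (c : W n → β) (p q : β)
    (h : ∀ a b, R a.1 b.1 → (c (.inl a) = p ↔ c (.inr b) = q)) (h0 : c (.inl (0, x)) = p) :
    (∀ a, c (.inl a) = p) ∧ ∀ b, c (.inr b) = q := by
  have b0 : ∀ y, c (.inr (0, y)) = q := fun y => (h (0, x) (0, y) (by simp [R])).1 h0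
  have a1 : c (.inl (1, x)) = p := (h (1, x) (0, 0) (by simp [R])).2 (b0 0)
  have b1 : ∀ y, c (.inr (1, y)) = q := fun y => (h (1, x) (1, y) (by simp [R])).1 a1
  constructor
  · rintro ⟨i, z⟩
    fin_cases i
    · exact (h (0, z) (0, 0) (by simp [R])).2 (b0 0)
    · exact (h (1, z) (0, 0) (by simp [R])).2 (b0 0)
    · exact (h (2, z) (1, 0) (by simp [R])).2 (b1 0)
  · rintro ⟨j, y⟩
    fin_cases j
    · exact b0 y
    · exact b1 y

lemma conn (x : Fin n) : (G n).Connected := by
  have := spread x (fun v => (G n).Reachable (.inl (0, x)) v) True True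
    (fun a b h => by
      have : (G n).Reachable (.inl a) (.inr b) := SimpleGraph.Adj.reachable h
      simp only [eq_iff_iff, iff_true]
      exact ⟨fun h => h.trans this, fun h => h.trans this.symm⟩) (by simp)
  refine (SimpleGraph.connected_iff_exists_forall_reachable _).2 ⟨.inl (0, x), ?_⟩
  rintro (a | b)
  · exact of_eq_true (this.1 a)
  · exact of_eq_true (this.2 b)

lemma classify (x : Fin n) {s : Setoid (W n)} (h : FAT (G n) s) :
    s = ⊤ ∨ s = Setoid.ker bip ∨ ∃ c, Bal c ∧ s = Setoid.ker c := by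
  obtain ⟨k, c, ⟨α, h0, h1, h⟩, rfl⟩ := h
  have zero : ∀ v w i, (G n).Adj v w → c w = i →
      (if c v = i then 1 - (k - 1) * α else α) ≠ 0 := by
    intro v w i hvw hw h'
    have := h v i
    rw [h', zero_mul, Nat.cast_eq_zero, Set.ncard_eq_zero] at this
    exact (this.subset ⟨hvw, hw⟩ : w ∈ (∅ : Set _))
  by_cases c1 : ∀ v w, (G n).Adj v w → c v = c w
  · left
    obtain ⟨a, b⟩ := spread x c _ _ (fun a b h => by rw [c1 (.inl a) (.inr b) h]) rfl
    rw [Setoid.eq_top_iff]
    rintro (u | u) (v | v) <;> simp [Setoid.ker_def, a, b]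
  right
  push Not at c1
  obtain ⟨v, w, hvw, hne⟩ := c1
  have α0 : α ≠ 0 := by simpa [hne] using zero v w _ hvw rfl
  obtain ⟨i, hi⟩ : ∃ i, c (.inl (0, x)) ≠ i := by
    by_cases d : c (.inl (0, x)) = c v
    · exact ⟨c w, d ▸ hne⟩
    · exact ⟨_, d⟩
  have e0 : ∀ z i, ((NB (fun w => c w = i) 0 : ℕ) : ℝ) =
      (if c (.inl (0, z)) = i then 1 - (k - 1) * α else α) * 2 := fun z i => by
    have := h (.inl (0, z)) i
    rw [cntA, degA] at this
    simpa [R] using this
  have e1 := e0 x i
  have e2 := e0 x (c (.inl (0, x)))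
  rw [if_neg hi] at e1
  rw [if_pos rfl] at e2
  have k2 : 2 ≤ k := by
    have := (c v).2
    have := (c w).2
    have : (c v).val ≠ (c w).val := fun h => hne (Fin.ext h)
    omega
  have e3 : 0 ≤ (1 - (k - 1) * α) * 2 := e2 ▸ Nat.cast_nonneg _
  have e4 : α = 1 / 2 ∨ α = 1 := by
    rw [NB_eq] at e1
    split_ifs at e1 <;> norm_num at e1
    · exact Or.inr e1
    · left; linarith
    · left; linarith
    · exact absurd e1 α0
  rcases e4 with rfl | rfl
  · right
    have k3 : k ≤ 3 := by
      have : (k : ℝ) ≤ 3 := by linarith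
      exact_mod_cast this
    have hB : ∀ j, c (.inr (j, 0)) ≠ c (.inr (j, 1)) := by
      intro j hj
      obtain ⟨a, ha, hd⟩ : ∃ a : Fin 3, (∀ j', R a j' ↔ j' = j) ∧ a ≠ 1 := by
        clear hj; revert j; decide
      have := h (.inl (a, x)) (c (.inr (j, 0)))
      rw [cntA, degA, if_neg hd] at this
      simp only [ha, sum_ite_eq', mem_univ, if_true, NB_eq, hj] at this
      have k2' : (2 : ℝ) ≤ k := by exact_mod_cast k2
      split_ifs at this <;> norm_num at this
      linarith
    obtain rfl | rfl : k = 2 ∨ k = 3 := by omega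
    · refine ⟨c, ⟨hB, ?_, ?_⟩, rfl⟩
      · have := h (.inr (0, 0)) 0
        rw [cntB, degB, show (1 : ℝ) - ((2 : ℕ) - 1) * (1 / 2) = 1 / 2 by norm_num,
          ite_self] at this
        simp [R, Fin.sum_univ_three] at this
        exact_mod_cast this
      · have := h (.inr (1, 0)) 0
        rw [cntB, degB, show (1 : ℝ) - ((2 : ℕ) - 1) * (1 / 2) = 1 / 2 by norm_num,
          ite_self] at this
        simp [R, Fin.sum_univ_three] at this
        exact_mod_cast this
    · exfalso
      have := h (.inr (0, 0)) (c (.inr (0, 1)))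
      rw [if_neg (hB 0), degB] at this
      have e : ({w | (G n).Adj (.inr (0, 0)) w ∧ c w = c (.inr (0, 1))} : Set (W n)) = ∅ := by
        ext w
        simp only [Set.mem_ofPred_eq, Set.mem_empty_iff_false, iff_false, not_and]
        intro h1 h2
        have h3 : (G n).Adj (.inr (0, 1)) w := by rcases w with w | w <;> exact h1
        exact zero _ _ _ h3 h2 (by norm_num)
      rw [e] at this
      have h5 : (0 : ℝ) < n := by exact_mod_cast x.pos
      rw [Set.ncard_empty] at this
      push_cast at this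
      linarith
  · left
    obtain rfl : k = 2 := by
      have : (k : ℝ) ≤ 2 := by linarith
      have : k ≤ 2 := by exact_mod_cast this
      omega
    have pr : ∀ v w, (G n).Adj v w → c v ≠ c w := fun v w hvw hc =>
      zero v w _ hvw rfl (by rw [if_pos hc]; norm_num)
    obtain ⟨a, b⟩ := spread x c (c (.inl (0, x))) i (fun a b h => by
      have := pr (.inl a) (.inr b) h
      omega) rfl
    ext u v
    rcases u with u | u <;> rcases v with v | v <;> simp [Setoid.ker_def, a, b, bip, hi, hi.symm]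

lemma two {V : Type} {c d : V → Fin 2} (h : Setoid.ker c ≤ Setoid.ker d) {p q : V}
    (hpq : d p ≠ d q) : Setoid.ker c = Setoid.ker d := by
  refine le_antisymm h fun u v huv => ?_
  have h' : ∀ a b, c a = c b → d a = d b := fun a b => @h a b
  have h1 := h' p q
  have h2 := h' p u
  have h3 := h' p v
  have h4 := h' q u
  have h5 := h' q v
  rw [Setoid.ker_def] at huv ⊢
  omega

lemma minimal_iff (x : Fin n) (s : Setoid (W n)) :
    Minimal (FAT (G n)) s ↔ s = Setoid.ker bip ∨ ∃ c, Bal c ∧ s = Setoid.ker c := by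
  constructor
  · intro h
    refine (classify x h.1).resolve_left ?_
    rintro rfl
    have : (Setoid.ker bip) (.inl (0, x)) (.inr (0, 0)) :=
      h.2 ⟨2, bip, bip_fat, rfl⟩ le_top trivial
    simp [Setoid.ker_def, bip] at this
  · intro h
    obtain ⟨d, hd, rfl, p, q, hpq⟩ : ∃ d : W n → Fin 2, IsFAT (G n) 2 d ∧ s = Setoid.ker d ∧
        ∃ p q, d p ≠ d q := by
      rcases h with rfl | ⟨c, hc, rfl⟩
      · exact ⟨_, bip_fat, rfl, .inl (0, x), .inr (0, 0), by simp [bip]⟩
      · exact ⟨_, bal_fat hc, rfl, _, _, hc.1 0⟩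
    refine ⟨⟨2, d, hd, rfl⟩, fun t ht hle => ?_⟩
    rcases classify x ht with rfl | rfl | ⟨c, -, rfl⟩
    · exact le_top
    · exact (two hle hpq).ge
    · exact (two hle hpq).ge

lemma perm_of {α : Type} [Fintype α] (f g : α → Fin 2) (h : #{x | f x = 0} = #{x | g x = 0}) :
    ∃ σ : Equiv.Perm α, ∀ x, g (σ x) = f x := by
  have e : ∀ i, Nonempty ({x // f x = i} ≃ {x // g x = i}) := by
    intro i
    rw [← Fintype.card_eq, Fintype.card_subtype, Fintype.card_subtype]
    have h1 := card_filter_add_card_filter_not (s := (univ : Finset α)) (fun x => f x = 0)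
    have h2 := card_filter_add_card_filter_not (s := (univ : Finset α)) (fun x => g x = 0)
    fin_cases i
    · exact h
    · have e : ∀ y : Fin 2, ¬ y = 0 ↔ y = 1 := by decide
      simp only [e] at h1 h2
      simp only [Fin.mk_one]
      omega
  exact ⟨Equiv.ofFiberEquiv fun i => (e i).some, Equiv.ofFiberEquiv_map _⟩

def rep (a : ℕ) : W n → Fin 2 :=
  Sum.elim (fun p => if (p.2.val < a ↔ p.1 = 1) then 0 else 1) fun q => q.2

lemma NA_rep {a : ℕ} (ha : a ≤ n) (i : Fin 3) :
    NA (n := n) (fun w => rep a w = 0) i = if i = 1 then a else n - a := by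
  have h1 : #{x : Fin n | x.val < a} = a := by
    rw [Fin.card_filter_val_lt, min_eq_right ha]
  have h2 := card_filter_add_card_filter_not (s := (univ : Finset (Fin n))) (fun x => x.val < a)
  rw [card_fin, h1] at h2
  unfold NA
  split_ifs with c
  · refine Eq.trans ?_ h1; congr 1; ext x; simp [rep, c]
  · rw [show n - a = #{x : Fin n | ¬x.val < a} by omega]; congr 1; ext x; simp [rep, c]

lemma bal_rep {a : ℕ} (ha : a ≤ n) : Bal (n := n) (rep a) :=
  ⟨fun j => by simp [rep], by simp [NA_rep ha, ha], by simp [NA_rep ha, ha]⟩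

lemma same_rep {c : W n → Fin 2} (h : Bal c) :
    Same (G n) (Setoid.ker c) (Setoid.ker (rep (NA (fun w => c w = 0) 1))) := by
  obtain ⟨h1, h2, h3⟩ := h
  have ha : NA (fun w => c w = 0) 1 ≤ n := by omega
  have e1 : ∀ i, ∃ σ : Equiv.Perm (Fin n), ∀ x,
      rep (NA (fun w => c w = 0) 1) (.inl (i, σ x)) = c (.inl (i, x)) := fun i => by
    refine perm_of (fun x => c (.inl (i, x))) (fun x => rep _ (.inl (i, x))) ?_
    have a1 := NA_rep ha i
    have a2 : NA (fun w => c w = 0) i =
        if i = 1 then NA (fun w => c w = 0) 1 else n - NA (fun w => c w = 0) 1 := by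
      fin_cases i <;> simp <;> omega
    rw [← a2] at a1
    generalize NA (fun w => c w = 0) 1 = a at a1 ⊢
    unfold NA at a1
    convert a1.symm
  have e2 : ∀ j, ∃ σ : Equiv.Perm (Fin 2), ∀ y, σ y = c (.inr (j, y)) := fun j => by
    refine perm_of (fun y => c (.inr (j, y))) id ?_
    have := h1 j
    simp only [card_filter, Fin.sum_univ_two, id]
    split_ifs <;> omega
  choose σ hσ using e1
  choose τ hτ using e2
  refine ⟨⟨Equiv.sumCongr (Equiv.prodCongrRight σ) (Equiv.prodCongrRight τ), ?_⟩, ?_⟩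
  · rintro (⟨i, x⟩ | ⟨j, y⟩) (⟨i', x'⟩ | ⟨j', y'⟩) <;> rfl
  · have : ∀ u, rep (NA (fun w => c w = 0) 1)
        (Equiv.sumCongr (Equiv.prodCongrRight σ) (Equiv.prodCongrRight τ) u) = c u := by
      rintro (⟨i, x⟩ | ⟨j, y⟩)
      · exact hσ i x
      · exact hτ j y
    intro u v
    simp only [Setoid.ker_def, RelIso.coe_fn_mk, this]

lemma bal_swap {c : W n → Fin 2} (h : Bal c) : Bal (fun w => 1 - c w) ∧
    Setoid.ker c = Setoid.ker (fun w => 1 - c w) ∧
    NA (fun w => 1 - c w = 0) 1 + NA (fun w => c w = 0) 1 = n := by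
  have e : (fun w => 1 - c w = 0) = fun w => c w = 1 := by
    funext w; rw [sub_eq_zero]; exact propext eq_comm
  have a0 := NA_add c 0
  have a1 := NA_add c 1
  have a2 := NA_add c 2
  obtain ⟨h1, h2, h3⟩ := h
  refine ⟨⟨fun j => by simpa using h1 j, ?_, ?_⟩, ?_, ?_⟩
  · rw [e]; omega
  · rw [e]; omega
  · ext u v; simp [Setoid.ker_def]
  · rw [e]; omega

lemma deg_iso (φ : G n ≃g G n) (v : W n) :
    ({w | (G n).Adj (φ v) w} : Set (W n)).ncard = ({w | (G n).Adj v w} : Set (W n)).ncard := by
  rw [← Set.ncard_image_of_injective {w | (G n).Adj v w} φ.injective]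
  congr 1
  ext w
  obtain ⟨w, rfl⟩ := φ.surjective w
  simp [φ.map_adj_iff]

lemma rep_inj {r a b : ℕ} (ha : a ≤ r) (hb : b ≤ r)
    (h : Same (G (2 * r + 1)) (Setoid.ker (rep a)) (Setoid.ker (rep b))) : a = b := by
  obtain ⟨φ, hφ⟩ := h
  have d4 : ∀ v : W (2 * r + 1), ({w | (G _).Adj v w} : Set _).ncard = 4 ↔
      ∃ x, v = .inl (1, x) := by
    rintro (⟨i, x⟩ | ⟨j, y⟩)
    · rw [degA]; by_cases h : i = 1 <;> simp [h]
    · rw [degB]; simp; omega
  have m : ∀ x, ∃ y, φ (.inl (1, x)) = .inl (1, y) := fun x =>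
    (d4 _).1 (by rw [deg_iso, degA]; rfl)
  choose f hf using m
  have fi : Function.Injective f := fun x y h => by
    have : φ (.inl (1, x)) = φ (.inl (1, y)) := by rw [hf, hf, h]
    simpa using this
  have fb := Finite.injective_iff_bijective.1 fi
  have key : ∀ x, x.val < a ↔ ¬(((f x).val < b) ↔ (f (Fin.last _)).val < b) := fun x => by
    have := hφ (.inl (1, x)) (.inl (1, Fin.last _))
    rw [hf, hf] at this
    simp only [Setoid.ker_def, rep, Sum.elim_inl, iff_true, Fin.val_last] at this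
    split_ifs at this <;> simp_all <;> omega
  have h1 : ∀ a ≤ r, #{x : Fin (2 * r + 1) | x.val < a} = a := fun a ha => by
    rw [Fin.card_filter_val_lt, min_eq_right (by omega)]
  have h2 := card_filter_add_card_filter_not (s := (univ : Finset (Fin (2 * r + 1))))
    (fun x => x.val < b)
  have h3 := card_bijective f fb (s := {x | x.val < a})
    (t := {y | ¬((y.val < b) ↔ (f (Fin.last _)).val < b)}) (fun x => by simpa using key x)
  rw [card_fin, h1 b hb] at h2
  rw [h1 a ha] at h3
  by_cases c : (f (Fin.last _)).val < b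
  · simp only [c, iff_true] at h3
    omega
  · simp only [c, iff_false, not_not, h1 b hb] at h3
    exact h3

lemma not_same (x : Fin n) (a : ℕ) (φ : G n ≃g G n)
    (h : ∀ u v, Setoid.ker (rep a) u v → Setoid.ker bip (φ u) (φ v)) : False := by
  have h1 := h (.inl (0, x)) (.inr (0, rep a (.inl (0, x)))) rfl
  have h2 : (G n).Adj (φ (.inl (0, x))) (φ (.inr (0, rep a (.inl (0, x))))) :=
    φ.map_adj_iff.2 (Or.inl rfl)
  generalize φ (.inl (0, x)) = u at *
  generalize φ (.inr (0, rep a (.inl (0, x)))) = v at *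
  rcases u with u | u <;> rcases v with v | v <;> simp [G, bip, Setoid.ker_def] at h1 h2

theorem result (b : ℕ) (hb : 1 ≤ b) : ∃ (V : Type) (_ : Finite V) (H : SimpleGraph V),
    H.Connected ∧ ∃ r : Fin b → Setoid V, (∀ i, Minimal (FAT H) (r i)) ∧
      (∀ i j, Same H (r i) (r j) → i = j) ∧ ∀ s, Minimal (FAT H) s → ∃ i, Same H s (r i) := by
  obtain rfl | ⟨r, rfl⟩ : b = 1 ∨ ∃ r, b = r + 2 := by
    rcases b with _ | _ | b
    · omega
    · exact Or.inl rfl
    · exact Or.inr ⟨b, rfl⟩
  · refine ⟨Unit, inferInstance, ⊤, SimpleGraph.connected_top, fun _ => ⊤, fun _ => ⟨⟨1, fun _ => 0,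
      ⟨0, le_rfl, zero_le_one, fun v i => by simp⟩, by ext; simp⟩,
      fun t _ _ u v _ => by rw [Subsingleton.elim u v]⟩, fun _ _ _ => Subsingleton.elim _ _,
      fun s _ => ⟨0, RelIso.refl _, fun u v => by simp [Subsingleton.elim u v]⟩⟩
  have x : Fin (2 * r + 1) := 0
  refine ⟨W (2 * r + 1), inferInstance, G _, conn x,
    fun i => if i.val ≤ r then Setoid.ker (rep i.val) else Setoid.ker bip, fun i => ?_,
    fun i j h => ?_, fun s hs => ?_⟩
  · rw [minimal_iff x]
    simp only
    split_ifs with c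
    · exact Or.inr ⟨_, bal_rep (by omega), rfl⟩
    · exact Or.inl rfl
  · simp only at h
    split_ifs at h with c1 c2 c2
    · exact Fin.ext (rep_inj c1 c2 h)
    · obtain ⟨φ, h⟩ := h
      exact (not_same x _ φ fun u v => (h u v).1).elim
    · obtain ⟨φ, h⟩ := h
      exact (not_same x _ φ.symm fun u v huv => (h _ _).2 (by simpa using huv)).elim
    · omega
  · rcases (minimal_iff x s).1 hs with rfl | ⟨c, hc, rfl⟩
    · exact ⟨Fin.last _, RelIso.refl _, fun u v => by
        show _ ↔ (if r + 1 ≤ r then Setoid.ker (rep (r + 1)) else Setoid.ker bip) u v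
        rw [if_neg (by omega)]⟩
    · by_cases d : NA (fun w => c w = 0) 1 ≤ r
      · exact ⟨⟨NA (fun w => c w = 0) 1, by omega⟩, by simpa only [if_pos d] using same_rep hc⟩
      · obtain ⟨h1, h2, h3⟩ := bal_swap hc
        have d' : NA (fun w => 1 - c w = 0) 1 ≤ r := by omega
        exact ⟨⟨NA (fun w => 1 - c w = 0) 1, by omega⟩,
          by simpa only [if_pos d', h2] using same_rep h1⟩

end Pool.Agent.Results.MP_48b99b_co.Yes
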